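import Pool.Agent.Lib.MP_91bf1e_al.Main

set_option autoImplicit false

namespace Pool.Agent.Results.MP_91bf1e_al.TcrDependsOnGenerators

open Pool.Agent.Lib.MP_91bf1e_al

/-- There are a finitely generated group `G`, an (even injective) endomorphism `φ` of `G` and two
finite generating sets `X`, `Y` of `G` such that the `φ`-twisted conjugacy ratios of `G` with
respect to `X` and `Y` are different. -/
theorem result :
    ∃ (G : Type) (_ : Group G) (φ : G →* G) (X Y : Set G),
      X.Finite ∧ Y.Finite ∧ Subgroup.closure X = ⊤ ∧ Subgroup.closure Y = ⊤ ∧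
      Function.Injective φ ∧ tcr X φ ≠ tcr Y φ := by
  refine ⟨G0, inferInstance, phi0, X0, Y0, X0_finite, Y0_finite, closure_X0, closure_Y0,
    phi0_injective, tcr_ne⟩

end Pool.Agent.Results.MP_91bf1e_al.TcrDependsOnGenerators
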